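import Pool.Agent.R113.SP.Coef

/-!
# Nilpotent realizations with nonsingular Jacobian
-/

set_option autoImplicit false
set_option maxHeartbeats 400000

namespace Pool.Agent.R113.SP

open Polynomial Matrix Topology

theorem ek_0 (A : Fin 4 → Fin 4 → ℝ) : ek 0 A = e1 A := rfl
theorem ek_1 (A : Fin 4 → Fin 4 → ℝ) : ek 1 A = e2 A := rfl
theorem ek_2 (A : Fin 4 → Fin 4 → ℝ) : ek 2 A = e3 A := rfl
theorem ek_3 (A : Fin 4 → Fin 4 → ℝ) : ek 3 A = e4 A := rfl
theorem ek_3' (A : Fin 4 → Fin 4 → ℤ) : ek 3 A = e4 A := rfl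

attribute [local irreducible] ek e1 e2 e3 e4

/-- the perturbed matrix: `y m` is added at the position `p m`, and `ε N` -/
def per (A0 : Fin 4 → Fin 4 → ℤ) (p : Fin 4 → Fin 4 × Fin 4) (N : Fin 4 → Fin 4 → ℝ)
    (q : (Fin 4 → ℝ) × ℝ) : Fin 4 → Fin 4 → ℝ :=
  fun a b => (A0 a b : ℝ) + (∑ m, if (a, b) = p m then q.1 m else 0) + q.2 * N a b

/-- the Jacobian -/
def jac (A0 : Fin 4 → Fin 4 → ℤ) (p : Fin 4 → Fin 4 × Fin 4) : Fin 4 → Fin 4 → ℤ :=
  fun k m => ek k (upd A0 (p m) 1) - ek k A0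

theorem contDiff_per (A0 : Fin 4 → Fin 4 → ℤ) (p : Fin 4 → Fin 4 × Fin 4)
    (N : Fin 4 → Fin 4 → ℝ) (a b : Fin 4) : ContDiff ℝ 1 (fun q => per A0 p N q a b) := by
  unfold per
  have h : ∀ m, ContDiff ℝ 1 (fun q : (Fin 4 → ℝ) × ℝ => if (a, b) = p m then q.1 m else 0) := by
    intro m
    split_ifs
    · fun_prop
    · fun_prop
  have h2 : ContDiff ℝ 1 (fun q : (Fin 4 → ℝ) × ℝ => ∑ m, if (a, b) = p m then q.1 m else 0) :=
    ContDiff.sum fun m _ => h m
  fun_prop

theorem nilpotent_jacobian (A0 : Fin 4 → Fin 4 → ℤ) (p : Fin 4 → Fin 4 × Fin 4)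
    (h0 : ∀ k, ek k A0 = 0) (hp : ∀ m, A0 (p m).1 (p m).2 ≠ 0) (hJ : e4 (jac A0 p) ≠ 0)
    (S : Matrix (Fin 4) (Fin 4) SignType)
    (hS : ∀ a b, A0 a b ≠ 0 → S a b = SignType.sign (A0 a b)) (f : ℝ[X]) (hf : f.Monic)
    (hdeg : f.natDegree = 4) :
    ∃ A : Matrix (Fin 4) (Fin 4) ℝ, (∀ i j, SignType.sign (A i j) = S i j) ∧ A.charpoly = f := by
  classical
  set N : Fin 4 → Fin 4 → ℝ := fun a b => if A0 a b ≠ 0 then 0 else ((S a b : ℤ) : ℝ) with hN
  obtain ⟨Φ, hΦ⟩ : ∃ Φ : (Fin 4 → ℝ) × ℝ → (Fin 4 → ℝ) × ℝ,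
      ∀ q, Φ q = (fun k => ek k (per A0 p N q), q.2) := ⟨_, fun _ => rfl⟩
  have hcd : ContDiff ℝ 1 Φ := by
    rw [show Φ = fun q => (fun k => ek k (per A0 p N q), q.2) from funext hΦ]
    apply ContDiff.prodMk
    · exact contDiff_pi.2 fun k => contDiff_ek _ (fun a b => contDiff_per A0 p N a b) k
    · fun_prop
  have hper0 : per A0 p N 0 = fun a b => (A0 a b : ℝ) := by
    funext a b
    simp [per]
  have hΦ0 : Φ 0 = 0 := by
    rw [hΦ]
    simp only [hper0, ek_cast, h0]
    ext <;> simp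
  have hstrict := (hcd.contDiffAt (x := 0)).hasStrictFDerivAt (by norm_num)
  set L := fderiv ℝ Φ 0 with hL
  -- values of the derivative
  have hLm : ∀ m, L (Pi.single m 1, 0) = (fun k => ((jac A0 p k m : ℤ) : ℝ), 0) := by
    intro m
    have h1 := hstrict.hasFDerivAt.hasLineDerivAt (Pi.single m 1, 0)
    have h2 : HasDerivAt (fun t : ℝ => Φ (0 + t • ((Pi.single m 1, 0) : (Fin 4 → ℝ) × ℝ)))
        (fun k => ((jac A0 p k m : ℤ) : ℝ), 0) 0 := by
      have e1 : (fun t : ℝ => Φ (0 + t • ((Pi.single m 1, 0) : (Fin 4 → ℝ) × ℝ))) =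
          fun t : ℝ => ((fun k => t * ((jac A0 p k m : ℤ) : ℝ), 0) : (Fin 4 → ℝ) × ℝ) := by
        funext t
        have e2 : per A0 p N (0 + t • ((Pi.single m 1, 0) : (Fin 4 → ℝ) × ℝ)) =
            upd (fun a b => (A0 a b : ℝ)) (p m) t := by
          funext a b
          simp only [per, upd, zero_add, Prod.smul_mk, smul_zero, zero_mul, add_zero]
          congr 1
          rw [Finset.sum_eq_single m]
          · simp
          · intro m' _ hm'
            simp [Pi.single_apply, hm']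
          · simp
        have e3 : upd (fun a b => (A0 a b : ℝ)) (p m) 1 =
            fun a b => ((upd A0 (p m) 1 a b : ℤ) : ℝ) := by
          funext a b
          simp [upd]
        rw [hΦ]
        simp only [e2]
        ext k
        · simp only
          rw [ek_upd, e3, ek_cast, ek_cast, h0, jac, h0]
          push_cast
          ring
        · simp
      rw [e1]
      apply HasDerivAt.prodMk
      · apply hasDerivAt_pi.2
        intro k
        have := (hasDerivAt_id (0 : ℝ)).mul_const ((jac A0 p k m : ℤ) : ℝ)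
        simpa using this
      · exact hasDerivAt_const _ _
    exact h1.unique h2
  have hL2 : ∀ v, (L v).2 = v.2 := by
    intro v
    have h1 := hstrict.hasFDerivAt.hasLineDerivAt v
    have h1' : HasDerivAt (fun t : ℝ => Φ (0 + t • v)) (L v) 0 := h1
    have h2 : HasDerivAt (fun t : ℝ => (Φ (0 + t • v)).2) (L v).2 0 :=
      (ContinuousLinearMap.snd ℝ (Fin 4 → ℝ) ℝ).hasFDerivAt.comp_hasDerivAt 0 h1'
    have h3 : HasDerivAt (fun t : ℝ => (Φ (0 + t • v)).2) v.2 0 := by
      have : (fun t : ℝ => (Φ (0 + t • v)).2) = fun t : ℝ => t * v.2 := by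
        funext t
        simp [hΦ]
      rw [this]
      simpa using (hasDerivAt_id (0 : ℝ)).mul_const v.2
    exact h2.unique h3
  have hdetJ : (Matrix.of (fun k m => ((jac A0 p k m : ℤ) : ℝ))).det ≠ 0 := by
    have h1 : (Matrix.of (fun k m => ((jac A0 p k m : ℤ) : ℝ))).det =
        ((e4 (jac A0 p) : ℤ) : ℝ) := by
      rw [e4_det]
      have := ek_cast 3 (jac A0 p)
      rw [ek_3, ek_3'] at this
      exact this
    rw [h1]
    exact_mod_cast hJ
  have hsurj : LinearMap.range (L : (Fin 4 → ℝ) × ℝ →ₗ[ℝ] (Fin 4 → ℝ) × ℝ) = ⊤ := by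
    rw [LinearMap.range_eq_top]
    rintro ⟨c, η⟩
    set w := (L (0, 1)).1 with hw
    set J : Matrix (Fin 4) (Fin 4) ℝ := Matrix.of (fun k m => ((jac A0 p k m : ℤ) : ℝ)) with hJdef
    have hunit : IsUnit J.det := isUnit_iff_ne_zero.2 hdetJ
    set y := J⁻¹ *ᵥ (c - η • w) with hy
    refine ⟨(y, η), ?_⟩
    have e1 : ((y, η) : (Fin 4 → ℝ) × ℝ) = ∑ m, y m • ((Pi.single m 1, 0) : (Fin 4 → ℝ) × ℝ) +
        η • ((0, 1) : (Fin 4 → ℝ) × ℝ) := by
      ext k
      · simp [Prod.fst_sum, Finset.sum_apply, Pi.single_apply]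
      · simp [Prod.snd_sum]
    have e2 : L (y, η) = ∑ m, y m • L (Pi.single m 1, 0) + η • L (0, 1) := by
      rw [e1, map_add, map_sum, map_smul]
      congr 1
      exact Finset.sum_congr rfl fun m _ => map_smul _ _ _
    have e3 : (L (y, η)).1 = J *ᵥ y + η • w := by
      rw [e2, Prod.fst_add, Prod.smul_fst, Prod.fst_sum]
      congr 1
      funext k
      rw [Finset.sum_apply]
      simp only [hLm, Matrix.mulVec, dotProduct, hJdef, Matrix.of_apply, Prod.smul_mk, Pi.smul_apply,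
        smul_eq_mul]
      exact Finset.sum_congr rfl fun m _ => mul_comm _ _
    have e4 : J *ᵥ y = c - η • w := by
      rw [hy, Matrix.mulVec_mulVec, Matrix.mul_nonsing_inv _ hunit, Matrix.one_mulVec]
    apply Prod.ext
    · show (L (y, η)).1 = c
      rw [e3, e4]
      abel
    · exact hL2 _
  have hmap := hstrict.map_nhds_eq_of_surj hsurj
  rw [hΦ0] at hmap
  -- the sign conditions hold near zero
  set U : Set ((Fin 4 → ℝ) × ℝ) := {q | ∀ a b, A0 a b ≠ 0 →
    0 < (A0 a b : ℝ) * ((A0 a b : ℝ) + ∑ m, if (a, b) = p m then q.1 m else 0)} with hU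
  have hUmem : U ∈ 𝓝 (0 : (Fin 4 → ℝ) × ℝ) := by
    rw [hU]
    simp only [Set.ofPred_forall]
    rw [Filter.iInter_mem]
    intro a
    rw [Filter.iInter_mem]
    intro b
    by_cases h : A0 a b = 0
    · simp [h]
    · have hc : ContinuousAt (fun q : (Fin 4 → ℝ) × ℝ =>
          (A0 a b : ℝ) * ((A0 a b : ℝ) + ∑ m, if (a, b) = p m then q.1 m else 0)) 0 := by
        have : Continuous (fun q : (Fin 4 → ℝ) × ℝ =>
            (A0 a b : ℝ) * ((A0 a b : ℝ) + ∑ m, if (a, b) = p m then q.1 m else 0)) := by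
          apply continuous_const.mul
          apply continuous_const.add
          apply continuous_finsetSum
          intro m _
          split_ifs
          · fun_prop
          · fun_prop
        exact this.continuousAt
      have h1 : (0 : ℝ) < (A0 a b : ℝ) * ((A0 a b : ℝ) +
          ∑ m, if (a, b) = p m then (0 : (Fin 4 → ℝ) × ℝ).1 m else 0) := by
        have h2 : (∑ m, if (a, b) = p m then (0 : (Fin 4 → ℝ) × ℝ).1 m else 0) = 0 := by
          apply Finset.sum_eq_zero
          intro m _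
          split_ifs <;> simp
        rw [h2, add_zero]
        have : (A0 a b : ℝ) ≠ 0 := by exact_mod_cast h
        exact mul_self_pos.2 this
      have h3 := hc.eventually (lt_mem_nhds h1)
      filter_upwards [h3] with q hq
      simp only [Set.mem_iInter]
      intro _
      exact hq
  have hball : Φ '' U ∈ 𝓝 (0 : (Fin 4 → ℝ) × ℝ) := by
    rw [← hmap]
    exact Filter.image_mem_map hUmem
  obtain ⟨δ, hδ, hsub⟩ := Metric.mem_nhds_iff.1 hball
  -- target coefficients
  set r : Fin 4 → ℝ := ![-f.coeff 3, f.coeff 2, -f.coeff 1, f.coeff 0] with hr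
  obtain ⟨s, hs0, hs⟩ : ∃ s : ℝ, 0 < s ∧ ∀ k : Fin 4, |s ^ ((k : ℕ) + 1) * r k| < δ := by
    set M : ℝ := 1 + ∑ k, |r k| with hM
    have hMpos : 0 < M := by
      have : 0 ≤ ∑ k, |r k| := Finset.sum_nonneg fun k _ => abs_nonneg _
      linarith
    have hrM : ∀ k, |r k| < M := by
      intro k
      have : |r k| ≤ ∑ k, |r k| :=
        Finset.single_le_sum (f := fun k => |r k|) (fun k _ => abs_nonneg _) (Finset.mem_univ k)
      linarith
    refine ⟨min 1 (δ / M), lt_min one_pos (div_pos hδ hMpos), fun k => ?_⟩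
    set s := min 1 (δ / M) with hs
    have hs0 : 0 < s := lt_min one_pos (div_pos hδ hMpos)
    have hs1 : s ≤ 1 := min_le_left _ _
    rw [abs_mul, abs_of_pos (pow_pos hs0 _)]
    have h1 : s ^ ((k : ℕ) + 1) ≤ s := by
      calc s ^ ((k : ℕ) + 1) ≤ s ^ 1 := pow_le_pow_of_le_one hs0.le hs1 (by omega)
        _ = s := pow_one s
    calc s ^ ((k : ℕ) + 1) * |r k| ≤ s * |r k| := mul_le_mul_of_nonneg_right h1 (abs_nonneg _)
      _ < s * M := mul_lt_mul_of_pos_left (hrM k) hs0
      _ ≤ (δ / M) * M := mul_le_mul_of_nonneg_right (min_le_right _ _) hMpos.le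
      _ = δ := by field_simp
  have hmem : ((fun k => s ^ ((k : ℕ) + 1) * r k, δ / 2) : (Fin 4 → ℝ) × ℝ) ∈
      Metric.ball (0 : (Fin 4 → ℝ) × ℝ) δ := by
    rw [mem_ball_zero_iff, Prod.norm_def]
    apply max_lt
    · rw [pi_norm_lt_iff hδ]
      intro k
      rw [Real.norm_eq_abs]
      exact hs k
    · show ‖δ / 2‖ < δ
      rw [Real.norm_eq_abs, abs_of_pos (by linarith)]
      linarith
  obtain ⟨q, hqU, hq⟩ := hsub hmem
  rw [hΦ] at hq
  have hq1 : ∀ k, ek k (per A0 p N q) = s ^ ((k : ℕ) + 1) * r k := by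
    intro k
    have := congrArg Prod.fst hq
    exact congrFun this k
  have hq2 : q.2 = δ / 2 := congrArg Prod.snd hq
  set A : Matrix (Fin 4) (Fin 4) ℝ := fun a b => s⁻¹ * per A0 p N q a b with hA
  have hek : ∀ k, ek k A = r k := by
    intro k
    rw [hA, ek_smul, hq1, ← mul_assoc, ← mul_pow, inv_mul_cancel₀ hs0.ne', one_pow, one_mul]
  refine ⟨A, ?_, ?_⟩
  · intro a b
    have h1 : SignType.sign (A a b) = SignType.sign (per A0 p N q a b) := by
      rw [hA]
      simp only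
      rw [sign_mul, sign_pos (inv_pos.2 hs0), one_mul]
    rw [h1]
    by_cases h : A0 a b = 0
    · have h2 : ∀ m, (a, b) ≠ p m := by
        intro m hm
        apply hp m
        rw [← hm]
        exact h
      have h3 : per A0 p N q a b = (δ / 2) * ((S a b : ℤ) : ℝ) := by
        simp only [per, h2, if_false, Finset.sum_const_zero, h, hq2, hN]
        simp
      rw [h3, sign_mul, sign_pos (by linarith : (0 : ℝ) < δ / 2), one_mul]
      cases S a b <;> simp
    · have h2 : N a b = 0 := by simp [hN, h]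
      have h3 := hqU a b h
      rw [hS a b h]
      simp only [per, h2, mul_zero, add_zero]
      rcases lt_or_gt_of_ne h with h4 | h4
      · have h5 : (A0 a b : ℝ) < 0 := by exact_mod_cast h4
        rw [sign_neg h4, sign_neg (neg_of_mul_pos_right h3 h5.le)]
      · have h5 : (0 : ℝ) < (A0 a b : ℝ) := by exact_mod_cast h4
        rw [sign_pos h4, sign_pos ((mul_pos_iff_of_pos_left h5).1 h3)]
  · rw [charpoly_eq]
    have g1 : e1 A = r 0 := (ek_0 A).symm.trans (hek 0)
    have g2 : e2 A = r 1 := (ek_1 A).symm.trans (hek 1)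
    have g3 : e3 A = r 2 := (ek_2 A).symm.trans (hek 2)
    have g4 : e4 A = r 3 := (ek_3 A).symm.trans (hek 3)
    rw [g1, g2, g3, g4]
    have hlead : f.coeff 4 = 1 := by
      have := hf.coeff_natDegree
      rwa [hdeg] at this
    conv_rhs => rw [f.as_sum_range_C_mul_X_pow, hdeg]
    simp only [Finset.sum_range_succ, Finset.sum_range_zero, hlead, hr]
    simp
    ring

end Pool.Agent.R113.SP
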