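import Mathlib

/-!
# Coefficients of the characteristic polynomial of a matrix of order four
-/

set_option autoImplicit false
set_option maxHeartbeats 4000000

namespace Pool.Agent.R113.SP

open Polynomial Matrix

section Defs

variable {R : Type} [CommRing R]

/-- the sum of the principal minors of order 1 -/
def e1 (A : Fin 4 → Fin 4 → R) : R :=
  A 0 0 + A 1 1 + A 2 2 + A 3 3

/-- the sum of the principal minors of order 2 -/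
def e2 (A : Fin 4 → Fin 4 → R) : R :=
  A 0 0 * A 1 1 - A 0 1 * A 1 0 + A 0 0 * A 2 2 - A 0 2 * A 2 0 + A 0 0 * A 3 3 - A 0 3 * A 3 0
    + A 1 1 * A 2 2 - A 1 2 * A 2 1 + A 1 1 * A 3 3 - A 1 3 * A 3 1 + A 2 2 * A 3 3 - A 2 3 * A
    3 2

/-- the sum of the principal minors of order 3 -/
def e3 (A : Fin 4 → Fin 4 → R) : R :=
  A 0 0 * A 1 1 * A 2 2 - A 0 0 * A 1 2 * A 2 1 - A 0 1 * A 1 0 * A 2 2 + A 0 1 * A 1 2 * A 2 0
    + A 0 2 * A 1 0 * A 2 1 - A 0 2 * A 1 1 * A 2 0 + A 0 0 * A 1 1 * A 3 3 - A 0 0 * A 1 3 * A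
    3 1 - A 0 1 * A 1 0 * A 3 3 + A 0 1 * A 1 3 * A 3 0 + A 0 3 * A 1 0 * A 3 1 - A 0 3 * A 1 1
    * A 3 0 + A 0 0 * A 2 2 * A 3 3 - A 0 0 * A 2 3 * A 3 2 - A 0 2 * A 2 0 * A 3 3 + A 0 2 * A
    2 3 * A 3 0 + A 0 3 * A 2 0 * A 3 2 - A 0 3 * A 2 2 * A 3 0 + A 1 1 * A 2 2 * A 3 3 - A 1 1
    * A 2 3 * A 3 2 - A 1 2 * A 2 1 * A 3 3 + A 1 2 * A 2 3 * A 3 1 + A 1 3 * A 2 1 * A 3 2 - A
    1 3 * A 2 2 * A 3 1

/-- the sum of the principal minors of order 4 -/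
def e4 (A : Fin 4 → Fin 4 → R) : R :=
  A 0 0 * A 1 1 * A 2 2 * A 3 3 - A 0 0 * A 1 1 * A 2 3 * A 3 2 - A 0 0 * A 1 2 * A 2 1 * A 3 3
    + A 0 0 * A 1 2 * A 2 3 * A 3 1 + A 0 0 * A 1 3 * A 2 1 * A 3 2 - A 0 0 * A 1 3 * A 2 2 * A
    3 1 - A 0 1 * A 1 0 * A 2 2 * A 3 3 + A 0 1 * A 1 0 * A 2 3 * A 3 2 + A 0 1 * A 1 2 * A 2 0
    * A 3 3 - A 0 1 * A 1 2 * A 2 3 * A 3 0 - A 0 1 * A 1 3 * A 2 0 * A 3 2 + A 0 1 * A 1 3 * A
    2 2 * A 3 0 + A 0 2 * A 1 0 * A 2 1 * A 3 3 - A 0 2 * A 1 0 * A 2 3 * A 3 1 - A 0 2 * A 1 1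
    * A 2 0 * A 3 3 + A 0 2 * A 1 1 * A 2 3 * A 3 0 + A 0 2 * A 1 3 * A 2 0 * A 3 1 - A 0 2 * A
    1 3 * A 2 1 * A 3 0 - A 0 3 * A 1 0 * A 2 1 * A 3 2 + A 0 3 * A 1 0 * A 2 2 * A 3 1 + A 0 3
    * A 1 1 * A 2 0 * A 3 2 - A 0 3 * A 1 1 * A 2 2 * A 3 0 - A 0 3 * A 1 2 * A 2 0 * A 3 1 + A
    0 3 * A 1 2 * A 2 1 * A 3 0

/-- the four coefficient functions -/
def ek (k : Fin 4) (A : Fin 4 → Fin 4 → R) : R :=
  match k with
  | 0 => e1 A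
  | 1 => e2 A
  | 2 => e3 A
  | 3 => e4 A

/-- the matrix with `t` added at the position `p` -/
def upd (A : Fin 4 → Fin 4 → R) (p : Fin 4 × Fin 4) (t : R) : Fin 4 → Fin 4 → R :=
  fun a b => A a b + if (a, b) = p then t else 0

theorem e4_det (A : Matrix (Fin 4) (Fin 4) R) : A.det = e4 A := by
  simp [Matrix.det_succ_row_zero, Fin.sum_univ_succ, Fin.succAbove, e4]
  ring

theorem ek_upd (k : Fin 4) (A : Fin 4 → Fin 4 → R) (p : Fin 4 × Fin 4) (t : R) :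
    ek k (upd A p t) = ek k A + t * (ek k (upd A p 1) - ek k A) := by
  obtain ⟨a, b⟩ := p
  fin_cases k <;> fin_cases a <;> fin_cases b <;> simp [ek, e1, e2, e3, e4, upd] <;> ring

theorem ek_smul (k : Fin 4) (A : Fin 4 → Fin 4 → R) (c : R) :
    ek k (fun a b => c * A a b) = c ^ ((k : ℕ) + 1) * ek k A := by
  fin_cases k <;> simp [ek, e1, e2, e3, e4] <;> ring

end Defs

theorem ek_cast (k : Fin 4) (A : Fin 4 → Fin 4 → ℤ) :
    ek k (fun a b => (A a b : ℝ)) = ((ek k A : ℤ) : ℝ) := by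
  fin_cases k <;> simp [ek, e1, e2, e3, e4]

theorem charpoly_eq (A : Matrix (Fin 4) (Fin 4) ℝ) :
    A.charpoly = X ^ 4 - C (e1 A) * X ^ 3 + C (e2 A) * X ^ 2 - C (e3 A) * X + C (e4 A) := by
  have h1 : charmatrix A =
      !![X - C (A 0 0), -C (A 0 1), -C (A 0 2), -C (A 0 3);
         -C (A 1 0), X - C (A 1 1), -C (A 1 2), -C (A 1 3);
         -C (A 2 0), -C (A 2 1), X - C (A 2 2), -C (A 2 3);
         -C (A 3 0), -C (A 3 1), -C (A 3 2), X - C (A 3 3)] := by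
    ext i j
    fin_cases i <;> fin_cases j <;> simp [charmatrix]
  rw [Matrix.charpoly, h1, e4_det]
  simp [e1, e2, e3, e4]
  ring

theorem contDiff_ek {E : Type} [NormedAddCommGroup E] [NormedSpace ℝ E]
    (F : E → Fin 4 → Fin 4 → ℝ) (hF : ∀ a b, ContDiff ℝ 1 (fun q => F q a b)) (k : Fin 4) :
    ContDiff ℝ 1 (fun q => ek k (F q)) := by
  fin_cases k
  · show ContDiff ℝ 1 (fun q => e1 (F q))
    unfold e1
    fun_prop
  · show ContDiff ℝ 1 (fun q => e2 (F q))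
    unfold e2
    fun_prop
  · show ContDiff ℝ 1 (fun q => e3 (F q))
    unfold e3
    fun_prop
  · show ContDiff ℝ 1 (fun q => e4 (F q))
    unfold e4
    fun_prop

end Pool.Agent.R113.SP
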