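import Pool.Agent.R113.SP.Analytic

/-!
# The sixty-four nilpotent realizations
-/

set_option autoImplicit false
set_option synthInstance.maxHeartbeats 400000
set_option maxRecDepth 10000

namespace Pool.Agent.R113.SP

/-! Row `n = 32 i + 16 j + 8 [u < 0] + 4 k + 2 l + [v < 0]` of `dat` lists the entries of a nilpotent
integer matrix with the sign pattern of `T₂ ⊕ T₂` and two more entries, `u` at `(i, 2 + j)` and `v`
at `(2 + k, l)`. -/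

def r0 : List ℤ := [10, 2, 2, 0, -36, -6, 0, 0, 1, 0, 2, 2, 0, 0, -9, -6]
def r1 : List ℤ := [3, 1, 1, 0, -4, -2, 0, 0, -1, 0, 1, 1, 0, 0, -4, -2]
def r2 : List ℤ := [9, 36, 9, 0, -9, -18, 0, 0, 0, 27, 15, 9, 0, 0, -1, -6]
def r3 : List ℤ := [9, 21, 9, 0, -9, -18, 0, 0, 0, -3, 15, 9, 0, 0, -16, -6]
def r4 : List ℤ := [15, 9, 9, 0, -16, -6, 0, 0, 0, 0, 9, 9, 3, 0, -21, -18]
def r5 : List ℤ := [15, 9, 9, 0, -1, -6, 0, 0, 0, 0, 9, 9, -27, 0, -36, -18]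
def r6 : List ℤ := [1, 2, 1, 0, -1, -1, 0, 0, 0, 0, 2, 1, 0, 1, -3, -2]
def r7 : List ℤ := [4, 10, 4, 0, -4, -8, 0, 0, 0, 0, 8, 4, 0, -1, -10, -4]
def r8 : List ℤ := [3, 1, -1, 0, -4, -2, 0, 0, 1, 0, 1, 1, 0, 0, -4, -2]
def r9 : List ℤ := [10, 2, -2, 0, -36, -6, 0, 0, -1, 0, 2, 2, 0, 0, -9, -6]
def r10 : List ℤ := [9, 21, -9, 0, -9, -18, 0, 0, 0, 3, 15, 9, 0, 0, -16, -6]
def r11 : List ℤ := [9, 36, -9, 0, -9, -18, 0, 0, 0, -27, 15, 9, 0, 0, -1, -6]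
def r12 : List ℤ := [15, 9, -9, 0, -1, -6, 0, 0, 0, 0, 9, 9, 27, 0, -36, -18]
def r13 : List ℤ := [15, 9, -9, 0, -16, -6, 0, 0, 0, 0, 9, 9, -3, 0, -21, -18]
def r14 : List ℤ := [4, 10, -4, 0, -4, -8, 0, 0, 0, 0, 8, 4, 0, 1, -10, -4]
def r15 : List ℤ := [1, 2, -1, 0, -1, -1, 0, 0, 0, 0, 2, 1, 0, -1, -3, -2]
def r16 : List ℤ := [15, 9, 0, 9, -1, -6, 0, 0, 27, 0, 9, 36, 0, 0, -9, -18]
def r17 : List ℤ := [15, 9, 0, 9, -16, -6, 0, 0, -3, 0, 9, 21, 0, 0, -9, -18]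
def r18 : List ℤ := [4, 10, 0, 4, -4, -8, 0, 0, 0, 1, 8, 10, 0, 0, -4, -4]
def r19 : List ℤ := [1, 2, 0, 1, -1, -1, 0, 0, 0, -1, 2, 3, 0, 0, -1, -2]
def r20 : List ℤ := [2, 2, 0, 2, -4, -2, 0, 0, 0, 0, 2, 2, 1, 0, -1, -2]
def r21 : List ℤ := [14, 4, 0, 4, -27, -6, 0, 0, 0, 0, 6, 4, -4, 0, -27, -14]
def r22 : List ℤ := [18, 21, 0, 9, -9, -9, 0, 0, 0, 0, 6, 9, 0, 3, -16, -15]
def r23 : List ℤ := [18, 36, 0, 9, -9, -9, 0, 0, 0, 0, 6, 9, 0, -27, -1, -15]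
def r24 : List ℤ := [15, 9, 0, -9, -16, -6, 0, 0, 3, 0, 9, 21, 0, 0, -9, -18]
def r25 : List ℤ := [15, 9, 0, -9, -1, -6, 0, 0, -27, 0, 9, 36, 0, 0, -9, -18]
def r26 : List ℤ := [1, 2, 0, -1, -1, -1, 0, 0, 0, 1, 2, 3, 0, 0, -1, -2]
def r27 : List ℤ := [4, 10, 0, -4, -4, -8, 0, 0, 0, -1, 8, 10, 0, 0, -4, -4]
def r28 : List ℤ := [14, 4, 0, -4, -27, -6, 0, 0, 0, 0, 6, 4, 4, 0, -27, -14]
def r29 : List ℤ := [2, 2, 0, -2, -4, -2, 0, 0, 0, 0, 2, 2, -1, 0, -1, -2]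
def r30 : List ℤ := [18, 36, 0, -9, -9, -9, 0, 0, 0, 0, 6, 9, 0, 27, -1, -15]
def r31 : List ℤ := [18, 21, 0, -9, -9, -9, 0, 0, 0, 0, 6, 9, 0, -3, -16, -15]
def r32 : List ℤ := [9, 9, 0, 0, -21, -18, 9, 0, 3, 0, 15, 9, 0, 0, -16, -6]
def r33 : List ℤ := [9, 9, 0, 0, -36, -18, 9, 0, -27, 0, 15, 9, 0, 0, -1, -6]
def r34 : List ℤ := [2, 2, 0, 0, -4, -2, 2, 0, 0, 1, 2, 2, 0, 0, -1, -2]
def r35 : List ℤ := [4, 1, 0, 0, -8, -1, 1, 0, 0, -1, 1, 1, 0, 0, -8, -4]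
def r36 : List ℤ := [4, 4, 0, 0, -10, -8, 4, 0, 0, 0, 8, 4, 1, 0, -10, -4]
def r37 : List ℤ := [1, 1, 0, 0, -2, -1, 1, 0, 0, 0, 2, 1, -1, 0, -3, -2]
def r38 : List ℤ := [30, 25, 0, 0, -81, -5, 25, 0, 0, 0, 50, 25, 0, 125, -100, -75]
def r39 : List ℤ := [6, 9, 0, 0, -16, -15, 9, 0, 0, 0, 18, 9, 0, -3, -21, -9]
def r40 : List ℤ := [9, 9, 0, 0, -36, -18, -9, 0, 27, 0, 15, 9, 0, 0, -1, -6]
def r41 : List ℤ := [9, 9, 0, 0, -21, -18, -9, 0, -3, 0, 15, 9, 0, 0, -16, -6]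
def r42 : List ℤ := [4, 1, 0, 0, -8, -1, -1, 0, 0, 1, 1, 1, 0, 0, -8, -4]
def r43 : List ℤ := [2, 2, 0, 0, -4, -2, -2, 0, 0, -1, 2, 2, 0, 0, -1, -2]
def r44 : List ℤ := [1, 1, 0, 0, -2, -1, -1, 0, 0, 0, 2, 1, 1, 0, -3, -2]
def r45 : List ℤ := [4, 4, 0, 0, -10, -8, -4, 0, 0, 0, 8, 4, -1, 0, -10, -4]
def r46 : List ℤ := [6, 9, 0, 0, -16, -15, -9, 0, 0, 0, 18, 9, 0, 3, -21, -9]
def r47 : List ℤ := [30, 25, 0, 0, -81, -5, -25, 0, 0, 0, 50, 25, 0, -125, -100, -75]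
def r48 : List ℤ := [1, 1, 0, 0, -2, -1, 0, 1, 1, 0, 2, 3, 0, 0, -1, -2]
def r49 : List ℤ := [4, 4, 0, 0, -10, -8, 0, 4, -1, 0, 8, 10, 0, 0, -4, -4]
def r50 : List ℤ := [6, 9, 0, 0, -16, -15, 0, 9, 0, 3, 18, 21, 0, 0, -9, -9]
def r51 : List ℤ := [30, 25, 0, 0, -81, -5, 0, 25, 0, -125, 50, 100, 0, 0, -25, -75]
def r52 : List ℤ := [18, 9, 0, 0, -36, -9, 0, 9, 0, 0, 6, 9, 27, 0, -1, -15]
def r53 : List ℤ := [18, 9, 0, 0, -21, -9, 0, 9, 0, 0, 6, 9, -3, 0, -16, -15]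
def r54 : List ℤ := [6, 2, 0, 0, -9, -2, 0, 2, 0, 0, 6, 2, 0, 1, -36, -10]
def r55 : List ℤ := [2, 1, 0, 0, -4, -1, 0, 1, 0, 0, 2, 1, 0, -1, -4, -3]
def r56 : List ℤ := [4, 4, 0, 0, -10, -8, 0, -4, 1, 0, 8, 10, 0, 0, -4, -4]
def r57 : List ℤ := [1, 1, 0, 0, -2, -1, 0, -1, -1, 0, 2, 3, 0, 0, -1, -2]
def r58 : List ℤ := [30, 25, 0, 0, -81, -5, 0, -25, 0, 125, 50, 100, 0, 0, -25, -75]
def r59 : List ℤ := [6, 9, 0, 0, -16, -15, 0, -9, 0, -3, 18, 21, 0, 0, -9, -9]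
def r60 : List ℤ := [18, 9, 0, 0, -21, -9, 0, -9, 0, 0, 6, 9, 3, 0, -16, -15]
def r61 : List ℤ := [18, 9, 0, 0, -36, -9, 0, -9, 0, 0, 6, 9, -27, 0, -1, -15]
def r62 : List ℤ := [2, 1, 0, 0, -4, -1, 0, -1, 0, 0, 2, 1, 0, 1, -4, -3]
def r63 : List ℤ := [6, 2, 0, 0, -9, -2, 0, -2, 0, 0, 6, 2, 0, -1, -36, -10]

def dat : List (List ℤ) := [
  r0, r1, r2, r3, r4, r5, r6, r7,
  r8, r9, r10, r11, r12, r13, r14, r15,
  r16, r17, r18, r19, r20, r21, r22, r23,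
  r24, r25, r26, r27, r28, r29, r30, r31,
  r32, r33, r34, r35, r36, r37, r38, r39,
  r40, r41, r42, r43, r44, r45, r46, r47,
  r48, r49, r50, r51, r52, r53, r54, r55,
  r56, r57, r58, r59, r60, r61, r62, r63]

def p0 : List ℕ := [0, 1, 2, 5]
def p1 : List ℕ := [0, 1, 2, 5]
def p2 : List ℕ := [0, 1, 2, 10]
def p3 : List ℕ := [0, 1, 2, 10]
def p4 : List ℕ := [0, 1, 2, 5]
def p5 : List ℕ := [0, 1, 2, 5]
def p6 : List ℕ := [0, 1, 2, 10]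
def p7 : List ℕ := [0, 1, 2, 10]
def p8 : List ℕ := [0, 1, 2, 5]
def p9 : List ℕ := [0, 1, 2, 5]
def p10 : List ℕ := [0, 1, 2, 10]
def p11 : List ℕ := [0, 1, 2, 10]
def p12 : List ℕ := [0, 1, 2, 5]
def p13 : List ℕ := [0, 1, 2, 5]
def p14 : List ℕ := [0, 1, 2, 10]
def p15 : List ℕ := [0, 1, 2, 10]
def p16 : List ℕ := [0, 1, 3, 5]
def p17 : List ℕ := [0, 1, 3, 5]
def p18 : List ℕ := [0, 1, 3, 10]
def p19 : List ℕ := [0, 1, 3, 10]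
def p20 : List ℕ := [0, 1, 3, 5]
def p21 : List ℕ := [0, 1, 3, 5]
def p22 : List ℕ := [0, 1, 3, 11]
def p23 : List ℕ := [0, 1, 3, 10]
def p24 : List ℕ := [0, 1, 3, 5]
def p25 : List ℕ := [0, 1, 3, 5]
def p26 : List ℕ := [0, 1, 3, 10]
def p27 : List ℕ := [0, 1, 3, 10]
def p28 : List ℕ := [0, 1, 3, 5]
def p29 : List ℕ := [0, 1, 3, 5]
def p30 : List ℕ := [0, 1, 3, 10]
def p31 : List ℕ := [0, 1, 3, 11]
def p32 : List ℕ := [0, 1, 4, 10]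
def p33 : List ℕ := [0, 1, 4, 10]
def p34 : List ℕ := [0, 1, 5, 6]
def p35 : List ℕ := [0, 1, 5, 6]
def p36 : List ℕ := [0, 1, 4, 10]
def p37 : List ℕ := [0, 1, 4, 10]
def p38 : List ℕ := [0, 1, 5, 6]
def p39 : List ℕ := [0, 1, 5, 6]
def p40 : List ℕ := [0, 1, 4, 10]
def p41 : List ℕ := [0, 1, 4, 10]
def p42 : List ℕ := [0, 1, 5, 6]
def p43 : List ℕ := [0, 1, 5, 6]
def p44 : List ℕ := [0, 1, 4, 10]
def p45 : List ℕ := [0, 1, 4, 10]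
def p46 : List ℕ := [0, 1, 5, 6]
def p47 : List ℕ := [0, 1, 5, 6]
def p48 : List ℕ := [0, 1, 4, 10]
def p49 : List ℕ := [0, 1, 4, 10]
def p50 : List ℕ := [0, 1, 5, 7]
def p51 : List ℕ := [0, 1, 5, 7]
def p52 : List ℕ := [0, 1, 4, 10]
def p53 : List ℕ := [0, 1, 4, 11]
def p54 : List ℕ := [0, 1, 5, 7]
def p55 : List ℕ := [0, 1, 5, 7]
def p56 : List ℕ := [0, 1, 4, 10]
def p57 : List ℕ := [0, 1, 4, 10]
def p58 : List ℕ := [0, 1, 5, 7]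
def p59 : List ℕ := [0, 1, 5, 7]
def p60 : List ℕ := [0, 1, 4, 11]
def p61 : List ℕ := [0, 1, 4, 10]
def p62 : List ℕ := [0, 1, 5, 7]
def p63 : List ℕ := [0, 1, 5, 7]

/-- positions, encoded as `4 * row + column` -/
def pdat : List (List ℕ) := [
  p0, p1, p2, p3, p4, p5, p6, p7,
  p8, p9, p10, p11, p12, p13, p14, p15,
  p16, p17, p18, p19, p20, p21, p22, p23,
  p24, p25, p26, p27, p28, p29, p30, p31,
  p32, p33, p34, p35, p36, p37, p38, p39,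
  p40, p41, p42, p43, p44, p45, p46, p47,
  p48, p49, p50, p51, p52, p53, p54, p55,
  p56, p57, p58, p59, p60, p61, p62, p63]

/-- the `n`-th matrix -/
def A0 (n : ℕ) (a b : Fin 4) : ℤ := (dat.getD n []).getD (4 * a + b) 0

/-- the positions of the four variables -/
def ps (n : ℕ) (m : Fin 4) : Fin 4 × Fin 4 :=
  (Fin.ofNat 4 ((pdat.getD n []).getD m 0 / 4), Fin.ofNat 4 ((pdat.getD n []).getD m 0 % 4))

/-- `T₂ ⊕ T₂` -/
def T : Matrix (Fin 4) (Fin 4) SignType :=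
  !![1, 1, 0, 0; -1, -1, 0, 0; 0, 0, 1, 1; 0, 0, -1, -1]

/-- the index of a minimal pattern -/
def idx (i j : Fin 2) (u : Bool) (k l : Fin 2) (v : Bool) : ℕ :=
  32 * i + 16 * j + 8 * (if u then 0 else 1) + 4 * k + 2 * l + (if v then 0 else 1)

/-- the upper right position -/
def ur (i j : Fin 2) : Fin 4 × Fin 4 := (Fin.castAdd 2 i, Fin.natAdd 2 j)

/-- the lower left position -/
def ll (k l : Fin 2) : Fin 4 × Fin 4 := (Fin.natAdd 2 k, Fin.castAdd 2 l)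

/-- the sign of an integer -/
def sgn (x : ℤ) : SignType := if 0 < x then 1 else if x < 0 then -1 else 0

theorem sgn_eq (x : ℤ) : sgn x = SignType.sign x := by
  unfold sgn
  rcases lt_trichotomy x 0 with h | h | h
  · rw [if_neg h.le.not_gt, if_pos h, sign_neg h]
  · subst h; simp
  · rw [if_pos h, sign_pos h]

/-- the pattern condition at the position `(a, b)` -/
def okk (i j : Fin 2) (u : Bool) (k l : Fin 2) (v : Bool) (a b : Fin 4) : Bool :=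
  decide (A0 (idx i j u k l v) a b = 0) ||
  (decide (T a b ≠ 0) && decide (T a b = sgn (A0 (idx i j u k l v) a b))) ||
  (decide ((a, b) = ur i j) && decide (sgn (A0 (idx i j u k l v) a b) = if u then 1 else -1)) ||
  (decide ((a, b) = ll k l) && decide (sgn (A0 (idx i j u k l v) a b) = if v then 1 else -1))

theorem table1 : ∀ (i j : Fin 2) (u : Bool) (k l : Fin 2) (v : Bool),
    (∀ m, ek m (A0 (idx i j u k l v)) = 0) := by decide +kernel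

theorem table2 : ∀ (i j : Fin 2) (u : Bool) (k l : Fin 2) (v : Bool),
    (∀ m, A0 (idx i j u k l v) (ps (idx i j u k l v) m).1 (ps (idx i j u k l v) m).2 ≠ 0) := by
  decide +kernel

theorem table3 : ∀ (i j : Fin 2) (u : Bool) (k l : Fin 2) (v : Bool),
    e4 (jac (A0 (idx i j u k l v)) (ps (idx i j u k l v))) ≠ 0 := by decide +kernel

theorem table4 : ∀ (i j : Fin 2) (u : Bool) (k l : Fin 2) (v : Bool) (a b : Fin 4),
    okk i j u k l v a b = true := by decide +kernel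

theorem table5 (i j : Fin 2) (u : Bool) (k l : Fin 2) (v : Bool) (a b : Fin 4)
    (h : A0 (idx i j u k l v) a b ≠ 0) :
      (T a b ≠ 0 ∧ T a b = SignType.sign (A0 (idx i j u k l v) a b)) ∨
      ((a, b) = ur i j ∧ SignType.sign (A0 (idx i j u k l v) a b) = if u then 1 else -1) ∨
      ((a, b) = ll k l ∧ SignType.sign (A0 (idx i j u k l v) a b) = if v then 1 else -1) := by
  have h1 := table4 i j u k l v a b
  simp only [okk, Bool.or_eq_true, Bool.and_eq_true, decide_eq_true_eq, sgn_eq] at h1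
  tauto

end Pool.Agent.R113.SP
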